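import Mathlib

/-!
# Multiplicative groups generated by the conjugates of Weil numbers
-/

set_option autoImplicit false

namespace Pool.Agent.Helper793_Tate

/-- Some power of the element `α` of the field `Ω` is a product of powers (with integral, also
negative, exponents) of `p` and of the images of the numbers `π i`, `i` in `S`, under the
embeddings `K i → Ω`. -/
def InGroup (p : ℕ) {I : Type*} [Fintype I] {K : I → Type*} [∀ i, Field (K i)]
    [∀ i, NumberField (K i)] (π : ∀ i, K i) (S : Set I) {Ω : Type*} [Field Ω] [CharZero Ω]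
    (α : Ω) : Prop :=
  ∃ (N : ℕ) (e : ℤ) (c : (Σ i, (K i →+* Ω)) → ℤ), 0 < N ∧ (∀ x, x.1 ∉ S → c x = 0) ∧
    α ^ N = (p : Ω) ^ e * ∏ x : Σ i, (K i →+* Ω), (x.2 (π x.1)) ^ c x

end Pool.Agent.Helper793_Tate
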