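import Pool.Agent.H621.AF.Pub
import Pool.Agent.Helper793_Tate.TDefs
import Pool.Agent.Helper793_Prime.Defs

/-!
# Varieties whose Frobenius eigenvalues are in the groups of one block of Weil numbers
-/

open CategoryTheory AlgebraicGeometry

universe u

namespace Pool.Agent.Helper793_Tate

open Pool.Agent.TH125.Gal Pool.Agent.H621.AF
open Pool.Agent.H914 Pool.Agent.H914.VarClass Pool.Agent.H914.VarClass.Obj

variable {k : Type u} [Field k] {𝒱 : VarClass k} {ops : CycleOps 𝒱}
  {W : WeilCohomology.{u, 0} ops} {Γ : Type} [Group Γ]

/-- The eigenvalues of `g` on the cohomology of `X` are in the group given by `p` and by the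
conjugates of the numbers `π r`, `r` in `S` (`InGroup`); the group `Γ` acts through automorphisms of
the graded algebra, and `X` has a zero-cycle of nonzero degree. -/
structure EigenvaluesIn (p : ℕ) {I : Type} [Fintype I] {K : I → Type} [∀ r, Field (K r)]
    [∀ r, NumberField (K r)] (π : ∀ r, K r) (S : Set I) (g : Γ) (X : GVar W Γ) : Prop where
  degrees : RespectsDegrees X
  point : HasPoint X
  eigenvalues : ∀ x : W.Kˣ, IsEigenvalue X.act g x → InGroup p π S (x : W.K)

/-- The varieties in the block `i`: the eigenvalues of `g` on the cohomology are in the group given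
by `p` and by the conjugates of the numbers `π r`, `b r = i`, and `g` is generic: it has on each
subspace of the cohomology which is stable under a subgroup of finite index of `Γ` and not contained
in the span of the Tate classes an eigenvalue no power of which is a power of `χ g`. -/
def blockOf (χ : Γ →* W.Kˣ) (p : ℕ) {I J : Type} [Fintype I] {K : I → Type} [∀ r, Field (K r)]
    [∀ r, NumberField (K r)] (π : ∀ r, K r) (b : I → J) (g : Γ) (i : J) : Set (GVar W Γ) :=
  {X | EigenvaluesIn p π {r | b r = i} g X ∧ IsGeneric χ (W.gr X.X) X.act g}

end Pool.Agent.Helper793_Tate
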