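import Mathlib
import Pool.Agent.Helper793_Tate.TDefs
import Pool.Agent.Helper793_Prime.RelSplit

/-!
# Splitting of multiplicative relations in an algebraically closed field
-/

set_option autoImplicit false
set_option linter.unusedSectionVars false
set_option linter.unusedVariables false

namespace Pool.Agent.Helper793_Tate

open NumberField Module Pool.Agent.H204R3.CM Pool.Agent.H868R3.TwoOdd Pool.Agent.H194R3.CM
  Pool.Agent.H194R3.Tate Pool.Agent.H925R2 Pool.Agent.H485R3 Pool.Agent.Helper793_Prime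

variable {I : Type*} (p : ℕ) [Fact p.Prime] {K : I → Type*} [∀ i, Field (K i)]
  [∀ i, NumberField (K i)] [∀ i, IsCMField (K i)]
  {Ω : Type*} [Field Ω] [CharZero Ω] [IsAlgClosed Ω]

/-- The embeddings into an algebraically closed field factor through a large Galois field. -/
theorem exists_emb {L : Type*} [Field L] [NumberField L] [IsGalois ℚ L] (j : L →+* ℂ)
    (h : ∀ i, ∀ ψ : K i →+* ℂ, ∃ φ : K i →+* L, j.comp φ = ψ) :
    ∃ j' : L →+* Ω, ∀ i, Function.Bijective (fun φ : K i →+* L => j'.comp φ) := by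
  classical
  let j' : L →ₐ[ℚ] Ω := IsAlgClosed.lift
  refine ⟨(j' : L →+* Ω), fun i => ?_⟩
  rw [Fintype.bijective_iff_injective_and_card]
  constructor
  · intro φ ψ hφψ
    ext x
    exact (j' : L →+* Ω).injective (RingHom.congr_fun hφψ x)
  · rw [card_emb j (h i), NumberField.Embeddings.card (K i) Ω]

/-- Splitting of multiplicative relations in an algebraically closed field. -/
theorem relation_split_alg [Fintype I] (m : I → ℕ) (π : ∀ i, K i)
    (hint : ∀ i, IsIntegral ℤ (π i))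
    (hweil : ∀ i, ∀ φ : K i →+* ℂ, ‖φ (π i)‖ ^ 2 = (((p : ℚ) ^ m i : ℚ) : ℝ))
    (side : I → Bool) (hsep : ∀ i j, side i ≠ side j → Separated (K i) (K j))
    (c : (Σ i, (K i →+* Ω)) → ℤ) (ε : ℤ)
    (hrel : (p : Ω) ^ ε * ∏ x : Σ i, (K i →+* Ω), (x.2 (π x.1)) ^ c x = 1) (v : Bool) :
    ∃ s : ℕ, 0 < s ∧
      ((∏ x ∈ Finset.univ.filter (fun x : Σ i, (K i →+* Ω) => side x.1 = v),
        (x.2 (π x.1)) ^ c x) ^ 2 *
        (p : Ω) ^ (-(∑ x ∈ Finset.univ.filter (fun x : Σ i, (K i →+* Ω) => side x.1 = v),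
          c x * m x.1))) ^ s = 1 := by
  classical
  obtain ⟨L, hL1, hL2, j, h⟩ := exists_galois K
  obtain ⟨j', hj'⟩ := exists_emb (Ω := Ω) j h
  let E : (Σ i, (K i →+* L)) ≃ (Σ i, (K i →+* Ω)) :=
    Equiv.sigmaCongrRight fun i => Equiv.ofBijective _ (hj' i)
  have hE1 : ∀ x, (E x).1 = x.1 := fun x => rfl
  have hE2 : ∀ x : Σ i, (K i →+* L), (E x).2 (π (E x).1) = j' (x.2 (π x.1)) := fun x => rfl
  have hprod : ∏ x : Σ i, (K i →+* Ω), (x.2 (π x.1)) ^ c x =
      j' (∏ x : Σ i, (K i →+* L), (x.2 (π x.1)) ^ c (E x)) := by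
    rw [map_prod]
    refine (Fintype.prod_equiv E _ _ fun x => ?_).symm
    rw [map_zpow₀, hE2]
  have hprodB : ∏ x ∈ Finset.univ.filter (fun x : Σ i, (K i →+* Ω) => side x.1 = v),
      (x.2 (π x.1)) ^ c x =
      j' (∏ x ∈ Finset.univ.filter (fun x : Σ i, (K i →+* L) => side x.1 = v),
        (x.2 (π x.1)) ^ c (E x)) := by
    rw [map_prod]
    symm
    refine Finset.prod_equiv E (fun x => ?_) fun x _ => ?_
    · simp only [Finset.mem_filter, Finset.mem_univ, true_and, hE1]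
    · rw [map_zpow₀, hE2]
  have hsumB : ∑ x ∈ Finset.univ.filter (fun x : Σ i, (K i →+* Ω) => side x.1 = v),
      c x * m x.1 = ∑ x ∈ Finset.univ.filter (fun x : Σ i, (K i →+* L) => side x.1 = v),
        c (E x) * m x.1 := by
    symm
    refine Finset.sum_equiv E (fun x => ?_) fun x _ => ?_
    · simp only [Finset.mem_filter, Finset.mem_univ, true_and, hE1]
    · rw [hE1]
  have hpj : (p : Ω) = j' (p : L) := (map_natCast j' p).symm
  have hrel' : (p : L) ^ ε * ∏ x : Σ i, (K i →+* L), (x.2 (π x.1)) ^ c (E x) = 1 := by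
    apply j'.injective
    rw [map_mul, map_zpow₀, ← hprod, ← hpj, hrel, map_one]
  obtain ⟨s, hs, h1⟩ := relation_split p m π hint hweil side hsep j h (fun x => c (E x)) ε hrel' v
  refine ⟨s, hs, ?_⟩
  rw [hprodB, hsumB, hpj, ← map_zpow₀, ← map_pow, ← map_mul, ← map_pow, h1, map_one]

theorem Separated.symm' {F F' : Type*} [Field F] [NumberField F] [Field F'] [NumberField F']
    (h : Separated F F') : Separated F' F := by
  rcases h with h | ⟨h1, h2⟩
  · left
    intro φ ψ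
    obtain ⟨τ, h' | h'⟩ := h ψ φ
    · exact ⟨τ, Or.inr ⟨h'.2, h'.1⟩⟩
    · exact ⟨τ, Or.inl ⟨h'.2, h'.1⟩⟩
  · right
    refine ⟨fun h => h1 h.symm, ?_⟩
    rcases h2 with h2 | h2 | h2 | h2 | h2
    · left
      refine ⟨h2.1.symm, ?_⟩
      rcases h2.2 with h3 | h3 | h3
      · exact Or.inl ⟨h3.2, h3.1⟩
      · exact Or.inr (Or.inr h3)
      · exact Or.inr (Or.inl h3)
    · exact Or.inr (Or.inr (Or.inl h2))
    · exact Or.inr (Or.inl h2)
    · exact Or.inr (Or.inr (Or.inr (Or.inr h2)))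
    · exact Or.inr (Or.inr (Or.inr (Or.inl h2)))

/-- If `α β` has a power which is a power of `p`, where `α` and `β` belong to the multiplicative
groups of separated fields, some power of `α` is a power of `p`. -/
theorem left_of_relation_alg [Fintype I] (m : I → ℕ) (π : ∀ i, K i)
    (hint : ∀ i, IsIntegral ℤ (π i))
    (hweil : ∀ i, ∀ φ : K i →+* ℂ, ‖φ (π i)‖ ^ 2 = (((p : ℚ) ^ m i : ℚ) : ℝ))
    (S : Set I) (hsep : ∀ i ∈ S, ∀ j ∉ S, Separated (K i) (K j)) (α β : Ω)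
    (hα : InGroup p π S α) (hβ : InGroup p π Sᶜ β) (A : ℕ) (hA : 0 < A) (B : ℤ)
    (hrel : (α * β) ^ A = (p : Ω) ^ B) :
    ∃ (A' : ℕ) (B' : ℤ), 0 < A' ∧ α ^ A' = (p : Ω) ^ B' := by
  classical
  have hp : p.Prime := Fact.out
  have hp0 : (p : Ω) ≠ 0 := by exact_mod_cast hp.ne_zero
  obtain ⟨N, e, c, hN, hc, hα⟩ := hα
  obtain ⟨N', e', c', hN', hc', hβ⟩ := hβ
  have hq : ∀ i, (0 : ℚ) < (p : ℚ) ^ m i := fun i => pow_pos (by exact_mod_cast hp.pos) _
  have h0 : ∀ x : Σ i, (K i →+* Ω), x.2 (π x.1) ≠ 0 := fun x =>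
    (map_ne_zero x.2).2 (weil_ne (hq x.1) (hweil x.1))
  let side : I → Bool := fun i => decide (i ∈ S)
  have hside : ∀ i j, side i ≠ side j → Separated (K i) (K j) := by
    intro i j hij
    by_cases h1 : i ∈ S <;> by_cases h2 : j ∈ S
    · exact absurd (by simp [side, h1, h2]) hij
    · exact hsep i h1 j h2
    · exact Separated.symm' (hsep j h2 i h1)
    · exact absurd (by simp [side, h1, h2]) hij
  let P : ((Σ i, (K i →+* Ω)) → ℤ) → Ω := fun c => ∏ x : Σ i, (K i →+* Ω), (x.2 (π x.1)) ^ c x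
  have hPpow : ∀ (c : (Σ i, (K i →+* Ω)) → ℤ) (n : ℕ), P c ^ n = P (fun x => c x * n) := by
    intro c n
    simp only [P]
    rw [← Finset.prod_pow]
    exact Finset.prod_congr rfl fun x _ => by rw [zpow_mul, zpow_natCast]
  have hPmul : ∀ c c' : (Σ i, (K i →+* Ω)) → ℤ, P c * P c' = P (fun x => c x + c' x) := by
    intro c c'
    simp only [P]
    rw [← Finset.prod_mul_distrib]
    exact Finset.prod_congr rfl fun x _ => by rw [zpow_add₀ (h0 x)]
  have hα' : α ^ N = (p : Ω) ^ e * P c := hα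
  have hβ' : β ^ N' = (p : Ω) ^ e' * P c' := hβ
  have key : (p : Ω) ^ (e * (N' * A : ℕ) + e' * (N * A : ℕ) - B * (N * N' : ℕ)) *
      P (fun x => c x * (N' * A : ℕ) + c' x * (N * A : ℕ)) = 1 := by
    have h1 : (α * β) ^ (A * (N * N')) = (p : Ω) ^ (B * (N * N' : ℕ)) := by
      rw [pow_mul, hrel, zpow_mul, zpow_natCast]
    have h2 : (α * β) ^ (A * (N * N')) = (α ^ N) ^ (N' * A) * (β ^ N') ^ (N * A) := by
      rw [mul_pow, ← pow_mul, ← pow_mul]
      congr 2 <;> ring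
    rw [h2, hα', hβ', mul_pow, mul_pow, hPpow, hPpow, ← zpow_natCast, ← zpow_mul,
      ← zpow_natCast ((p : Ω) ^ e'), ← zpow_mul] at h1
    rw [zpow_sub₀ hp0, zpow_add₀ hp0, ← hPmul, ← h1]
    have e1 : (p : Ω) ^ (e * (N' * A : ℕ)) ≠ 0 := zpow_ne_zero _ hp0
    have e2 : (p : Ω) ^ (e' * (N * A : ℕ)) ≠ 0 := zpow_ne_zero _ hp0
    have e3 : P (fun x => c x * (N' * A : ℕ)) ≠ 0 :=
      Finset.prod_ne_zero_iff.2 fun x _ => zpow_ne_zero _ (h0 x)
    have e4 : P (fun x => c' x * (N * A : ℕ)) ≠ 0 :=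
      Finset.prod_ne_zero_iff.2 fun x _ => zpow_ne_zero _ (h0 x)
    field_simp
  obtain ⟨s, hs, h3⟩ := relation_split_alg p m π hint hweil side hside
    (fun x => c x * (N' * A : ℕ) + c' x * (N * A : ℕ)) _ key true
  obtain ⟨M, hM⟩ : ∃ M : ℤ, M = ∑ x ∈ Finset.univ.filter
      (fun x : Σ i, (K i →+* Ω) => side x.1 = true),
      (c x * (N' * A : ℕ) + c' x * (N * A : ℕ)) * m x.1 := ⟨_, rfl⟩
  rw [← hM] at h3
  have h4 : ∏ x ∈ Finset.univ.filter (fun x : Σ i, (K i →+* Ω) => side x.1 = true),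
      (x.2 (π x.1)) ^ (c x * (N' * A : ℕ) + c' x * (N * A : ℕ)) = P c ^ (N' * A) := by
    rw [hPpow]
    simp only [P]
    rw [Finset.prod_filter]
    refine Finset.prod_congr rfl fun x _ => ?_
    by_cases hx : x.1 ∈ S
    · have h5 : c' x = 0 := hc' x (fun h => h hx)
      rw [if_pos (by simp [side, hx]), h5, zero_mul, add_zero]
    · have h5 : c x = 0 := hc x hx
      rw [if_neg (by simp [side, hx]), h5, zero_mul, zpow_zero]
  rw [h4] at h3
  have h5 : P c ^ (N' * A * 2 * s) = (p : Ω) ^ (M * s) := by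
    rw [mul_pow, ← pow_mul, ← pow_mul, ← zpow_natCast ((p : Ω) ^ (-M)), ← zpow_mul, neg_mul,
      zpow_neg, mul_inv_eq_one₀ (zpow_ne_zero _ hp0)] at h3
    rw [mul_assoc _ 2 s]
    exact h3
  refine ⟨N * (N' * A * 2 * s), e * (N' * A * 2 * s : ℕ) + M * s, by positivity, ?_⟩
  rw [pow_mul, hα', mul_pow, h5, ← zpow_natCast, ← zpow_mul, zpow_add₀ hp0]

end Pool.Agent.Helper793_Tate
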