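import Pool.Agent.H621.AF.Twr
import Pool.Agent.Helper793_Tate.TSplit
import Pool.Agent.Helper793_Tate.TPub

/-!
# The Tate conjecture for products of varieties with separated Frobenius fields
-/

open CategoryTheory AlgebraicGeometry Finset Module NumberField

set_option linter.unusedSectionVars false

universe u

namespace Pool.Agent.Helper793_Tate

open Pool.Agent.TH125.Gal Pool.Agent.H621.AF Pool.Agent.Helper793_Prime
open Pool.Agent.H914 Pool.Agent.H914.VarClass Pool.Agent.H914.VarClass.Obj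
  Pool.Agent.H914.WeilCohomology

section group

variable {I : Type*} [Fintype I] (p : ℕ) [Fact p.Prime] {K : I → Type*} [∀ i, Field (K i)]
  [∀ i, NumberField (K i)] (π : ∀ i, K i) {Ω : Type*} [Field Ω] [CharZero Ω]

theorem InGroup.mono {S S' : Set I} (h : S ⊆ S') {α : Ω} (hα : InGroup p π S α) :
    InGroup p π S' α := by
  obtain ⟨N, e, c, hN, hc, hα⟩ := hα
  exact ⟨N, e, c, hN, fun x hx => hc x fun h' => hx (h h'), hα⟩

theorem InGroup.mul (hπ : ∀ i, π i ≠ 0) {S : Set I} {α β : Ω} (hα : InGroup p π S α)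
    (hβ : InGroup p π S β) : InGroup p π S (α * β) := by
  have hp0 : (p : Ω) ≠ 0 := by exact_mod_cast (Fact.out : p.Prime).ne_zero
  have h0 : ∀ x : Σ i, (K i →+* Ω), x.2 (π x.1) ≠ 0 := fun x => (map_ne_zero x.2).2 (hπ x.1)
  obtain ⟨N, e, c, hN, hc, hα⟩ := hα
  obtain ⟨N', e', c', hN', hc', hβ⟩ := hβ
  refine ⟨N * N', e * N' + e' * N, fun x => c x * N' + c' x * N, Nat.mul_pos hN hN', ?_, ?_⟩
  · intro x hx
    change c x * N' + c' x * N = 0
    rw [hc x hx, hc' x hx, zero_mul, zero_mul, add_zero]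
  · have h1 : (α * β) ^ (N * N') = (α ^ N) ^ N' * (β ^ N') ^ N := by
      rw [mul_pow, ← pow_mul, ← pow_mul]
      congr 2
      ring
    rw [h1, hα, hβ, mul_pow, mul_pow, ← Finset.prod_pow, ← Finset.prod_pow]
    have h2 : ∀ x : Σ i, (K i →+* Ω), (x.2 (π x.1)) ^ (c x * N' + c' x * N) =
        ((x.2 (π x.1)) ^ c x) ^ N' * ((x.2 (π x.1)) ^ c' x) ^ N := by
      intro x
      rw [zpow_add₀ (h0 x), zpow_mul, zpow_mul, zpow_natCast, zpow_natCast]
    rw [Finset.prod_congr rfl (fun x _ => h2 x), Finset.prod_mul_distrib, zpow_add₀ hp0,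
      zpow_mul, zpow_mul, zpow_natCast, zpow_natCast]
    ring

end group

variable {k : Type u} [Field k] {𝒱 : VarClass k} {ops : CycleOps 𝒱}
  {W : WeilCohomology.{u, 0} ops} {Γ : Type} [Group Γ] {χ : Γ →* W.Kˣ}
  (p : ℕ) [Fact p.Prime] {I J : Type} [Fintype I] {K : I → Type} [∀ r, Field (K r)]
  [∀ r, NumberField (K r)] [∀ r, IsCMField (K r)]

/-- Varieties with separated Frobenius fields are unlinked. -/
theorem unlinked_of_separated [IsAlgClosed W.K] {a : ℕ} (ha : 0 < a) (m : I → ℕ) (π : ∀ r, K r)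
    (hint : ∀ r, IsIntegral ℤ (π r))
    (hweil : ∀ r, ∀ φ : K r →+* ℂ, ‖φ (π r)‖ ^ 2 = (((p : ℚ) ^ m r : ℚ) : ℝ))
    (S : Set I) (hsep : ∀ r ∈ S, ∀ s ∉ S, Separated (K r) (K s)) {g : Γ}
    (hg : (χ g : W.K) = (p : W.K) ^ a) {X Y : GVar W Γ}
    (hX : ∀ x : W.Kˣ, IsEigenvalue X.act g x → InGroup p π S (x : W.K))
    (hY : ∀ x : W.Kˣ, IsEigenvalue Y.act g x → InGroup p π Sᶜ (x : W.K))
    (hgen : IsGeneric χ (W.gr X.X) X.act g) : Unlinked χ (W.gr X.X) X.act Y.act := by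
  intro Δ P hΔ hP hlk
  obtain ⟨n, hn, -, hgn⟩ := Subgroup.exists_pow_mem_of_index_ne_zero hΔ.index_ne_zero g
  refine hgen Δ P n hΔ hP hn hgn ?_
  intro x hx
  obtain ⟨y, hy, e, hxy⟩ := hlk _ hgn x hx
  obtain ⟨v, -, hv0, hv⟩ := hx
  obtain ⟨x₀, hx₀, rfl⟩ := eig_root_alg hn ⟨v, trivial, hv0, hv⟩
  obtain ⟨y₀, hy₀, rfl⟩ := eig_root_alg hn hy
  have h1 : ((x₀ : W.K) * (y₀ : W.K)) ^ n = (p : W.K) ^ ((a * (n * e) : ℕ) : ℤ) := by
    have h2 := congrArg (fun z : W.Kˣ => (z : W.K)) hxy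
    simp only [Units.val_mul, Units.val_pow_eq_pow_val, map_pow] at h2
    rw [mul_pow, h2, hg, zpow_natCast, ← pow_mul, ← pow_mul]
  obtain ⟨A', B', hA', h3⟩ := left_of_relation_alg p m π hint hweil S hsep (x₀ : W.K) (y₀ : W.K)
    (hX x₀ hx₀) (hY y₀ hy₀) n hn _ h1
  refine ⟨A' * a, Nat.mul_pos hA' ha, Subgroup.mem_zpowers_iff.2 ⟨B' * n, ?_⟩⟩
  apply Units.ext
  rw [Units.val_zpow_eq_zpow_val, Units.val_pow_eq_pow_val, Units.val_pow_eq_pow_val, hg,
    ← pow_mul]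
  have h4 : n * (A' * a) = A' * (n * a) := by ring
  rw [h4, pow_mul (x₀ : W.K), h3, ← zpow_natCast ((p : W.K) ^ B'), ← zpow_mul,
    ← zpow_natCast (p : W.K) a, ← zpow_mul]
  congr 1
  push_cast
  ring

/-- The properties of a product. -/
theorem tower_in (m : I → ℕ) (π : ∀ r, K r)
    (hweil : ∀ r, ∀ φ : K r →+* ℂ, ‖φ (π r)‖ ^ 2 = (((p : ℚ) ^ m r : ℚ) : ℝ))
    [IsAlgClosed W.K] (b : I → J) {g : Γ} {i₀ : J} {Z : GVar W Γ}
    (hZ : EigenvaluesIn p π {r | b r = i₀} g Z) {l : List (J × GVar W Γ)} {Y : GVar W Γ}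
    (hY : IsTower (blockOf χ p π b g) Z l Y) :
    EigenvaluesIn p π {r | b r = i₀ ∨ ∃ q ∈ l, q.1 = b r} g Y := by
  have hπ : ∀ r, π r ≠ 0 := by
    intro r h0
    obtain ⟨φ⟩ : Nonempty (K r →+* ℂ) := inferInstance
    have h1 := hweil r φ
    rw [h0, map_zero, norm_zero, zero_pow two_ne_zero] at h1
    have h2 : ((p : ℚ) ^ m r) = 0 := by exact_mod_cast h1.symm
    exact pow_ne_zero _ (by exact_mod_cast (Fact.out : p.Prime).ne_zero) h2
  induction hY with
  | base => exact ⟨hZ.degrees, hZ.point, fun x hx =>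
      (hZ.eigenvalues x hx).mono p π fun r hr => Or.inl hr⟩
  | @step l Y Y' i X hT hi hX hP ih =>
    obtain ⟨YX, υ⟩ := Y'
    obtain ⟨h0, h1, h2⟩ := hP
    change YX = X.X.prod Y.X at h0
    subst h0
    simp only [eqToHom_refl, Category.id_comp] at h1 h2
    refine ⟨graded_prod h1 h2 hX.1.degrees ih.degrees, point_prod hX.1.point ih.point, ?_⟩
    intro x hx
    obtain ⟨a, c, rfl, ha, hc⟩ := eig_prod h1 h2 hx
    rw [Units.val_mul]
    refine InGroup.mul p π hπ ((hX.1.eigenvalues a ha).mono p π ?_)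
      ((ih.eigenvalues c hc).mono p π ?_)
    · intro r hr
      exact Or.inr ⟨(i, X), List.mem_cons_self, hr.symm⟩
    · rintro r (hr | ⟨q, hq, hr⟩)
      · exact Or.inl hr
      · exact Or.inr ⟨q, List.mem_cons_of_mem _ hq, hr⟩

/-- **The Tate conjecture for products of varieties with separated Frobenius fields.** -/
theorem tate_separated [IsAlgClosed W.K] {a : ℕ} (ha : 0 < a) (m : I → ℕ) (π : ∀ r, K r)
    (hint : ∀ r, IsIntegral ℤ (π r))
    (hweil : ∀ r, ∀ φ : K r →+* ℂ, ‖φ (π r)‖ ^ 2 = (((p : ℚ) ^ m r : ℚ) : ℝ))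
    (b : I → J) (hsep : ∀ r s, b r ≠ b s → Separated (K r) (K s)) {g : Γ}
    (hg : (χ g : W.K) = (p : W.K) ^ a) (i₀ : J) {Z : GVar W Γ}
    (hZ : EigenvaluesIn p π {r | b r = i₀} g Z) {l : List (J × GVar W Γ)} {Y : GVar W Γ}
    (hY : IsTower (blockOf χ p π b g) Z l Y) (hl : ∀ q ∈ l, q.1 ≠ i₀) :
    TateConjecture χ Y ↔ TateConjecture χ Z ∧ ∀ q ∈ l, TateConjecture χ q.2 := by
  induction hY with
  | base => simp
  | @step l Y Y' i X hT hi hX hP ih =>
    have ih' := ih fun q hq => hl q (List.mem_cons_of_mem _ hq)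
    have hYin := tower_in p m π hweil b hZ hT
    have hU : Unlinked χ (W.gr X.X) X.act Y.act := by
      refine unlinked_of_separated p ha m π hint hweil {r | b r = i} (fun r hr s hs =>
        hsep r s fun h => hs (h.symm.trans hr)) hg hX.1.eigenvalues (fun x hx =>
          (hYin.eigenvalues x hx).mono p π ?_) hX.2
      rintro r (hr | ⟨q, hq, hr⟩) hri
      · exact hl (i, X) List.mem_cons_self (hri.symm.trans hr)
      · exact hi q hq (hr.trans hri)
    have hgoal : TateConjecture χ Y' ↔ TateConjecture χ Y ∧ TateConjecture χ X := by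
      obtain ⟨YX, υ⟩ := Y'
      obtain ⟨h0, h1, h2⟩ := hP
      change YX = X.X.prod Y.X at h0
      subst h0
      simp only [eqToHom_refl, Category.id_comp] at h1 h2
      exact ⟨fun h => ⟨tate_factor h2 hX.1.point h, tate_factor1 h1 hYin.point h⟩,
        fun h => tate_prod h1 h2 hU hYin.degrees h.2 h.1⟩
    rw [hgoal, ih', and_assoc]
    refine and_congr_right fun _ => ?_
    constructor
    · rintro ⟨h1, h2⟩ q hq
      rcases List.mem_cons.1 hq with rfl | hq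
      · exact h2
      · exact h1 q hq
    · intro h
      exact ⟨fun q hq => h q (List.mem_cons_of_mem _ hq), h (i, X) List.mem_cons_self⟩

end Pool.Agent.Helper793_Tate
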