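import Pool.Agent.H621.AF.DeeT
import Pool.Agent.Helper793_Tate.TMain

/-!
# The conjecture D for products of varieties with separated Frobenius fields

The theorems `tate_or`, `dee_tower` and `split_tower` of `Pool.Agent.H621.AF.DeeT` with separated
Frobenius fields instead of an independent family.
-/

open CategoryTheory AlgebraicGeometry Finset Module NumberField

set_option linter.unusedSectionVars false

universe u

namespace Pool.Agent.Helper793_Tate

open Pool.Agent.TH125.Gal Pool.Agent.H621.AF Pool.Agent.Helper793_Prime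
open Pool.Agent.H914 Pool.Agent.H914.VarClass Pool.Agent.H914.VarClass.Obj
  Pool.Agent.H914.WeilCohomology

variable {k : Type u} [Field k] {𝒱 : VarClass k} {ops : CycleOps 𝒱}
  {W : WeilCohomology.{u, 0} ops} {Γ : Type} [Group Γ] {χ : Γ →* W.Kˣ}
  (p : ℕ) [Fact p.Prime] {I J : Type} [Fintype I] {K : I → Type} [∀ r, Field (K r)]
  [∀ r, NumberField (K r)] [∀ r, IsCMField (K r)]

/-- The new factor of a tower is unlinked with the tower. -/
theorem unlinked_tower [IsAlgClosed W.K] {a : ℕ} (ha : 0 < a) (m : I → ℕ) (π : ∀ r, K r)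
    (hint : ∀ r, IsIntegral ℤ (π r))
    (hweil : ∀ r, ∀ φ : K r →+* ℂ, ‖φ (π r)‖ ^ 2 = (((p : ℚ) ^ m r : ℚ) : ℝ))
    (b : I → J) (hsep : ∀ r s, b r ≠ b s → Separated (K r) (K s)) {g : Γ}
    (hg : (χ g : W.K) = (p : W.K) ^ a) {i₀ : J} {Z : GVar W Γ}
    (hZ : EigenvaluesIn p π {r | b r = i₀} g Z) {l : List (J × GVar W Γ)} {Y : GVar W Γ}
    (hY : IsTower (blockOf χ p π b g) Z l Y) {i : J} (hi0 : i ≠ i₀) (hi : ∀ q ∈ l, q.1 ≠ i)
    {X : GVar W Γ} (hX : X ∈ blockOf χ p π b g i) : Unlinked χ (W.gr X.X) X.act Y.act := by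
  have hYin := tower_in p m π hweil b hZ hY
  refine unlinked_of_separated p ha m π hint hweil {r | b r = i} (fun r hr s hs =>
    hsep r s fun h => hs (h.symm.trans hr)) hg hX.1.eigenvalues (fun x hx =>
      (hYin.eigenvalues x hx).mono p π ?_) hX.2
  rintro r (hr | ⟨q, hq, hr⟩) hri
  · exact hi0 (hri.symm.trans hr)
  · exact hi q hq (hr.trans hri)

/-- The Tate conjecture for one of the two factors. -/
theorem tate_or_sep [IsAlgClosed W.K] {a : ℕ} (ha : 0 < a) (m : I → ℕ) (π : ∀ r, K r)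
    (hint : ∀ r, IsIntegral ℤ (π r))
    (hweil : ∀ r, ∀ φ : K r →+* ℂ, ‖φ (π r)‖ ^ 2 = (((p : ℚ) ^ m r : ℚ) : ℝ))
    (b : I → J) (hsep : ∀ r s, b r ≠ b s → Separated (K r) (K s)) {g : Γ}
    (hg : (χ g : W.K) = (p : W.K) ^ a) {i₀ : J} {Z : GVar W Γ}
    (hZ : EigenvaluesIn p π {r | b r = i₀} g Z) {l : List (J × GVar W Γ)} {Y : GVar W Γ}
    (hY : IsTower (blockOf χ p π b g) Z l Y) (hl : ∀ q ∈ l, q.1 ≠ i₀) {i : J}
    (hi : ∀ q ∈ l, q.1 ≠ i) {X : GVar W Γ} (h : TateForAllButOne χ Z ((i, X) :: l)) :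
    TateConjecture χ X ∨ TateConjecture χ Y := by
  rcases h with h | ⟨h, i', h'⟩
  · exact Or.inl (h (i, X) List.mem_cons_self)
  · by_cases hii : i = i'
    · subst hii
      exact Or.inr ((tate_separated p ha m π hint hweil b hsep hg i₀ hZ hY hl).2
        ⟨h, fun q hq => h' q (List.mem_cons_of_mem _ hq) (hi q hq)⟩)
    · exact Or.inl (h' (i, X) List.mem_cons_self hii)

/-- **The conjecture D for towers.** -/
theorem dee_separated [IsAlgClosed W.K] {a : ℕ} (ha : 0 < a) (m : I → ℕ) (π : ∀ r, K r)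
    (hint : ∀ r, IsIntegral ℤ (π r))
    (hweil : ∀ r, ∀ φ : K r →+* ℂ, ‖φ (π r)‖ ^ 2 = (((p : ℚ) ^ m r : ℚ) : ℝ))
    (b : I → J) (hsep : ∀ r s, b r ≠ b s → Separated (K r) (K s)) {g : Γ}
    (hg : (χ g : W.K) = (p : W.K) ^ a) {i₀ : J} {Z : GVar W Γ}
    (hZ : EigenvaluesIn p π {r | b r = i₀} g Z)
    (hcl : ∀ l Y, IsTower (blockOf χ p π b g) Z l Y → RespectsCycles χ Y)
    {l : List (J × GVar W Γ)} {Y : GVar W Γ}
    (hY : IsTower (blockOf χ p π b g) Z l Y) (hl : ∀ q ∈ l, q.1 ≠ i₀)
    (hT : TateForAllButOne χ Z l) :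
    ConjectureD Y ↔ ConjectureD Z ∧ ∀ q ∈ l, ConjectureD q.2 := by
  induction hY with
  | base => simp
  | @step l Y Y' i X hT' hi hX hP ih =>
    have hl' : ∀ q ∈ l, q.1 ≠ i₀ := fun q hq => hl q (List.mem_cons_of_mem _ hq)
    have ih' := ih hl' hT.tail
    have hU := unlinked_tower p ha m π hint hweil b hsep hg hZ hT' (hl _ List.mem_cons_self) hi hX
    have hYin := tower_in p m π hweil b hZ hT'
    have hor := tate_or_sep p ha m π hint hweil b hsep hg hZ hT' hl' hi hT
    have hcl' := hcl _ _ (IsTower.step i X hT' hi hX hP)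
    have hgoal : ConjectureD Y' ↔ ConjectureD Y ∧ ConjectureD X := by
      rw [conjectureD_iff, conjectureD_iff, conjectureD_iff]
      obtain ⟨YX, υ⟩ := Y'
      obtain ⟨h0, h1, h2⟩ := hP
      change YX = X.X.prod Y.X at h0
      subst h0
      simp only [eqToHom_refl, Category.id_comp] at h1 h2
      exact dee_prod h1 h2 hU hYin.degrees hor hcl' hX.1.point hYin.point
    rw [hgoal, ih', and_assoc]
    refine and_congr_right fun _ => ?_
    constructor
    · rintro ⟨h1, h2⟩ q hq
      rcases List.mem_cons.1 hq with rfl | hq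
      · exact h2
      · exact h1 q hq
    · intro h
      exact ⟨fun q hq => h q (List.mem_cons_of_mem _ hq), h (i, X) List.mem_cons_self⟩

/-- **The algebraic classes on towers.** -/
theorem split_separated [IsAlgClosed W.K] {a : ℕ} (ha : 0 < a) (m : I → ℕ) (π : ∀ r, K r)
    (hint : ∀ r, IsIntegral ℤ (π r))
    (hweil : ∀ r, ∀ φ : K r →+* ℂ, ‖φ (π r)‖ ^ 2 = (((p : ℚ) ^ m r : ℚ) : ℝ))
    (b : I → J) (hsep : ∀ r s, b r ≠ b s → Separated (K r) (K s)) {g : Γ}
    (hg : (χ g : W.K) = (p : W.K) ^ a) {i₀ : J} {Z : GVar W Γ}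
    (hZ : EigenvaluesIn p π {r | b r = i₀} g Z)
    (hcl : ∀ l Y, IsTower (blockOf χ p π b g) Z l Y → RespectsCycles χ Y)
    {l : List (J × GVar W Γ)} {Y : GVar W Γ}
    (hY : IsTower (blockOf χ p π b g) Z l Y) (hl : ∀ q ∈ l, q.1 ≠ i₀)
    (hT : TateForAllButOne χ Z l) (hD : ∀ q ∈ l, ConjectureD q.2)
    (hDZ : (∀ q ∈ l, TateConjecture χ q.2) ∨ ConjectureD Z) : CyclesSplit Z l Y := by
  induction hY with
  | base => exact fun j c hc => AddSubmonoid.subset_closure (IsProductClass.base j c hc)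
  | @step l Y Y' i X hT' hi hX hP ih =>
    have hl' : ∀ q ∈ l, q.1 ≠ i₀ := fun q hq => hl q (List.mem_cons_of_mem _ hq)
    have hD' : ∀ q ∈ l, ConjectureD q.2 := fun q hq => hD q (List.mem_cons_of_mem _ hq)
    have hDZ' : (∀ q ∈ l, TateConjecture χ q.2) ∨ ConjectureD Z :=
      hDZ.imp_left fun h q hq => h q (List.mem_cons_of_mem _ hq)
    have ih' := ih hl' hT.tail hD' hDZ'
    have hU := unlinked_tower p ha m π hint hweil b hsep hg hZ hT' (hl _ List.mem_cons_self) hi hX
    have hYin := tower_in p m π hweil b hZ hT'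
    have hor : TateConjecture χ X ∧ ConjectureD X ∨ TateConjecture χ Y ∧ ConjectureD Y := by
      by_cases hTX : TateConjecture χ X
      · exact Or.inl ⟨hTX, hD (i, X) List.mem_cons_self⟩
      · refine Or.inr ⟨(tate_or_sep p ha m π hint hweil b hsep hg hZ hT' hl' hi hT).resolve_left
          hTX, ?_⟩
        refine (dee_separated p ha m π hint hweil b hsep hg hZ hcl hT' hl' hT.tail).2 ⟨?_, hD'⟩
        exact hDZ.resolve_left fun h => hTX (h (i, X) List.mem_cons_self)
    have hcl' := hcl _ _ (IsTower.step i X hT' hi hX hP)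
    obtain ⟨YX, υ⟩ := Y'
    obtain ⟨h0, h1, h2⟩ := hP
    change YX = X.X.prod Y.X at h0
    subst h0
    have hstep : ∀ (j : ℕ) (a : W.H X.X), a ∈ algClasses W X.X j → ∀ c,
        IsProductClass (J := J) Z l Y c → H281R3.HT.ext W a c ∈ AddSubmonoid.closure
          {c | IsProductClass Z ((i, X) :: l) (⟨X.X.prod Y.X, υ⟩ : GVar W Γ) c} := by
      intro j a ha c hc
      have h3 := IsProductClass.step (Y' := (⟨X.X.prod Y.X, υ⟩ : GVar W Γ)) i X j a rfl hc ha
      rw [cross, mulPull] at h3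
      simp only [eqToHom_refl, Category.id_comp] at h3
      exact AddSubmonoid.subset_closure h3
    simp only [eqToHom_refl, Category.id_comp] at h1 h2
    intro j c hc
    have h4 := tens_step h1 h2 hU hYin.degrees hcl' hor (W552.AS.of hc)
    clear hc
    induction h4 using AddSubmonoid.closure_induction with
    | zero => exact AddSubmonoid.zero_mem _
    | add x y _ _ hx hy => exact AddSubmonoid.add_mem _ hx hy
    | mem w hw =>
      obtain ⟨x, y, hx, hy, rfl⟩ := hw
      refine W552.AS.ind (p := fun x => H281R3.HT.ext W x y ∈ AddSubmonoid.closure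
        {c | IsProductClass Z ((i, X) :: l) (⟨X.X.prod Y.X, υ⟩ : GVar W Γ) c}) ?_ ?_ hx
      · intro i' x hx
        refine W552.AS.ind (p := fun y => H281R3.HT.ext W x y ∈ AddSubmonoid.closure
          {c | IsProductClass Z ((i, X) :: l) (⟨X.X.prod Y.X, υ⟩ : GVar W Γ) c}) ?_ ?_ hy
        · intro j' y hy
          have h5 := ih' j' y hy
          clear hy
          induction h5 using AddSubmonoid.closure_induction with
          | zero =>
            rw [H281R3.HT.ext, map_zero, mul_zero]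
            exact AddSubmonoid.zero_mem _
          | add y y' _ _ hy hy' =>
            rw [show H281R3.HT.ext W x (y + y') = H281R3.HT.ext W x y + H281R3.HT.ext W x y' by
              simp only [H281R3.HT.ext, map_add, mul_add]]
            exact AddSubmonoid.add_mem _ hy hy'
          | mem c hc => exact hstep i' x hx c hc
        · intro y y' hy hy'
          rw [show H281R3.HT.ext W x (y + y') = H281R3.HT.ext W x y + H281R3.HT.ext W x y' by
            simp only [H281R3.HT.ext, map_add, mul_add]]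
          exact AddSubmonoid.add_mem _ hy hy'
      · intro x x' hx hx'
        rw [show H281R3.HT.ext W (x + x') y = H281R3.HT.ext W x y + H281R3.HT.ext W x' y by
          simp only [H281R3.HT.ext, map_add, add_mul]]
        exact AddSubmonoid.add_mem _ hx hx'

end Pool.Agent.Helper793_Tate
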