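import Pool.Agent.H621.AF.Hdg
import Pool.Agent.Helper793_Tate.TDee

/-!
# The conjecture of Hodge type for products of varieties with separated Frobenius fields

The theorems `known_or`, `clSplit_step`, `div_tower` and `hodge_tower` of `Pool.Agent.H621.AF` for
towers with unlinked factors, and their application to varieties with separated Frobenius fields.
-/

open CategoryTheory AlgebraicGeometry Finset Module NumberField

set_option linter.unusedSectionVars false
set_option linter.unusedVariables false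

universe u

namespace Pool.Agent.Helper793_Tate

open Pool.Agent.TH125.Gal Pool.Agent.H621.AF Pool.Agent.Helper793_Prime
open Pool.Agent.H914 Pool.Agent.H914.VarClass Pool.Agent.H914.VarClass.Obj
  Pool.Agent.H914.WeilCohomology Pool.Agent.H281R3.HT Pool.Agent.W552 Pool.Agent.TH132.A

variable {k : Type u} [Field k] {𝒱 : VarClass k} {ops : CycleOps 𝒱}
  {W : WeilCohomology.{u, 0} ops} {Γ : Type} [Group Γ] {χ : Γ →* W.Kˣ} {J : Type}

/-- The towers over `Z` with indices outside of `S` have unlinked factors. -/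
structure UnlinkedTowers (χ : Γ →* W.Kˣ) (F : J → Set (GVar W Γ)) (Z : GVar W Γ) (S : Set J) :
    Prop where
  point : ∀ i, ∀ X ∈ F i, HasPoint X
  degreesT : ∀ l Y, IsTower F Z l Y → RespectsDegrees Y
  pointT : ∀ l Y, IsTower F Z l Y → HasPoint Y
  cycles : ∀ l Y, IsTower F Z l Y → RespectsCycles χ Y
  unlinked : ∀ l Y i X, IsTower F Z l Y → (∀ q ∈ l, q.1 ∉ S) → i ∉ S → (∀ q ∈ l, q.1 ≠ i) →
    X ∈ F i → Unlinked χ (W.gr X.X) X.act Y.act
  tate : ∀ l Y, IsTower F Z l Y → (∀ q ∈ l, q.1 ∉ S) →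
    (TateConjecture χ Y ↔ TateConjecture χ Z ∧ ∀ q ∈ l, TateConjecture χ q.2)
  dee : ∀ l Y, IsTower F Z l Y → (∀ q ∈ l, q.1 ∉ S) → (∀ q ∈ l, TateConjecture χ q.2) →
    (ConjectureD Y ↔ ConjectureD Z ∧ ∀ q ∈ l, ConjectureD q.2)

variable {F : J → Set (GVar W Γ)} {S : Set J}

/-- One of the two factors is known. -/
theorem UnlinkedTowers.known_or [IsAlgClosed W.K] {Z : GVar W Γ} (hU : UnlinkedTowers χ F Z S)
    {l : List (J × GVar W Γ)} {Y : GVar W Γ} (hY : IsTower F Z l Y) (hl : ∀ p ∈ l, p.1 ∉ S)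
    {i : J} (hi : ∀ p ∈ l, p.1 ≠ i) {X : GVar W Γ} (h : KnownForAllButOne χ Z ((i, X) :: l)) :
    IsKnown χ X ∨ IsKnown χ Y := by
  rcases h with h | ⟨h, i', h'⟩
  · exact Or.inl (h (i, X) List.mem_cons_self)
  · by_cases hii : i = i'
    · subst hii
      have h2 : ∀ p ∈ l, IsKnown χ p.2 := fun p hp => h' p (List.mem_cons_of_mem _ hp) (hi p hp)
      exact Or.inr ⟨(hU.tate l Y hY hl).2 ⟨h.1, fun p hp => (h2 p hp).1⟩,
        (hU.dee l Y hY hl fun p hp => (h2 p hp).1).2 ⟨h.2, fun p hp => (h2 p hp).2⟩⟩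
    · exact Or.inl (h' (i, X) List.mem_cons_self hii)

/-- The cycles on one step split. -/
theorem UnlinkedTowers.clSplit_step [IsAlgClosed W.K] {Z : GVar W Γ}
    (hU : UnlinkedTowers χ F Z S) {l : List (J × GVar W Γ)} {Y : GVar W Γ} (hY : IsTower F Z l Y)
    {i : J} {X Y' : GVar W Γ} (hl : ∀ p ∈ (i, X) :: l, p.1 ∉ S) (hi : ∀ p ∈ l, p.1 ≠ i)
    (hX : X ∈ F i) (hP : IsProduct X Y Y') (h : KnownForAllButOne χ Z ((i, X) :: l)) :
    TH132.A.ClSplit W X.X Y.X := by
  have hl' : ∀ p ∈ l, p.1 ∉ S := fun p hp => hl p (List.mem_cons_of_mem _ hp)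
  have hun := hU.unlinked l Y i X hY hl' (hl _ List.mem_cons_self) hi hX
  have hYd := hU.degreesT l Y hY
  have hor := hU.known_or hY hl' hi h
  have hcl' := hU.cycles _ _ (IsTower.step i X hY hi hX hP)
  obtain ⟨YX, υ⟩ := Y'
  obtain ⟨h0, h1, h2⟩ := hP
  change YX = X.X.prod Y.X at h0
  subst h0
  simp only [eqToHom_refl, Category.id_comp] at h1 h2
  exact clSplit_of_tens fun z hz => tens_step h1 h2 hun hYd hcl' hor hz

/-- **The divisors with hard Lefschetz split.** -/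
theorem UnlinkedTowers.div_tower [IsAlgClosed W.K] {Z : GVar W Γ}
    (hU : UnlinkedTowers χ F Z S) {l : List (J × GVar W Γ)} {Y : GVar W Γ} (hY : IsTower F Z l Y)
    (hl : ∀ p ∈ l, p.1 ∉ S) (hK : KnownForAllButOne χ Z l) (c : W.H Y.X)
    (hc : (⟨Y, c⟩ : PVar W Γ).IsLefschetz) :
    ∃ (e : W.H Z.X) (l' : List (J × PVar W Γ)), (⟨Z, e⟩ : PVar W Γ).IsLefschetz ∧
      (∀ p ∈ l', p.2.IsLefschetz) ∧ forget l' = l ∧ IsSumTower F ⟨Z, e⟩ l' ⟨Y, c⟩ := by
  induction hY with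
  | base => exact ⟨c, [], hc, by simp, rfl, IsSumTower.base⟩
  | @step l Y Y' i X hT hi hX hP ih =>
    have hspl := hU.clSplit_step hT hl hi hX hP hK
    have hYp := hU.pointT l Y hT
    obtain ⟨YX, υ⟩ := Y'
    obtain ⟨h0, h1, h2⟩ := hP
    change YX = X.X.prod Y.X at h0
    subst h0
    obtain ⟨C, hCc, hC, hHL⟩ := isHard_iff.1 hc
    obtain ⟨D, E, hD, hE, hDE⟩ := div_split hspl hC
    have h3 := hl_left hD hE hDE hHL (one_ne_of_point hYp)
    have h4 := hl_right hE hD hDE hHL (one_ne_of_point (hU.point i X hX))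
    obtain ⟨e, l', he, hl', hf, hT'⟩ := ih (fun p hp => hl p (List.mem_cons_of_mem _ hp)) hK.tail
      (W.cl _ E) (isHard_iff.2 ⟨E, rfl, hE, h4⟩)
    refine ⟨e, (i, ⟨X, W.cl _ D⟩) :: l', he, ?_, ?_, ?_⟩
    · intro p hp
      rcases List.mem_cons.1 hp with rfl | hp
      · exact isHard_iff.2 ⟨D, rfl, hD, h3⟩
      · exact hl' p hp
    · rw [Pool.Agent.H621.AF.forget, List.map_cons]
      exact congrArg _ hf
    · refine IsSumTower.step i ⟨X, W.cl _ D⟩ hT' ?_ hX ⟨⟨rfl, h1, h2⟩, rfl, ?_⟩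
      · intro p hp
        exact hi (p.1, p.2.V) (hf ▸ List.mem_map.2 ⟨p, hp, rfl⟩)
      · rw [addPull]
        simp only [eqToHom_refl, Category.id_comp]
        rw [← hDE]
        exact hCc.symm

/-- **The conjecture of Hodge type for towers.** -/
theorem UnlinkedTowers.hodge_tower [IsAlgClosed W.K] {Z : PVar W Γ}
    (hU : UnlinkedTowers χ F Z.V S) {l : List (J × PVar W Γ)} {Y : PVar W Γ}
    (hY : IsSumTower F Z l Y) (hl : ∀ p ∈ l, p.1 ∉ S)
    (hK : KnownForAllButOne χ Z.V (forget l)) (hZL : Z.IsPolarization)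
    (hlL : ∀ p ∈ l, p.2.IsPolarization) :
    Y.IsPolarization ∧ (Y.HodgeType ↔ Z.HodgeType ∧ ∀ p ∈ l, p.2.HodgeType) := by
  induction hY with
  | base => exact ⟨hZL, by simp⟩
  | @step l Y Y' i X hT hi hX hP ih =>
    have hl' : ∀ p ∈ (i, X.V) :: forget l, p.1 ∉ S := by
      intro p hp
      rcases List.mem_cons.1 hp with rfl | hp
      · exact hl (i, X) List.mem_cons_self
      · obtain ⟨q, hq, rfl⟩ := List.mem_map.1 hp
        exact hl q (List.mem_cons_of_mem _ hq)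
    have hi' : ∀ p ∈ forget l, p.1 ≠ i := by
      intro p hp
      obtain ⟨q, hq, rfl⟩ := List.mem_map.1 hp
      exact hi q hq
    obtain ⟨⟨hYL, hYpos⟩, hYA⟩ := ih (fun p hp => hl p (List.mem_cons_of_mem _ hp)) hK.tail
      (fun p hp => hlL p (List.mem_cons_of_mem _ hp))
    have hspl := hU.clSplit_step hT.tower hl' hi' hX hP.1 hK
    have hor := hU.known_or hT.tower (fun p hp => hl' p (List.mem_cons_of_mem _ hp)) hi' hK
    have hYp := hU.pointT _ _ hT.tower
    obtain ⟨hXL, hXpos⟩ := hlL (i, X) List.mem_cons_self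
    have hgoal : Y'.IsPolarization ∧ (Y'.HodgeType ↔ Y.HodgeType ∧ X.HodgeType) := by
      obtain ⟨⟨YX, υ⟩, c⟩ := Y'
      obtain ⟨⟨h0, h1, h2⟩, h0', hc⟩ := hP
      change YX = X.V.X.prod Y.V.X at h0
      subst h0
      rw [addPull] at hc
      simp only [eqToHom_refl, Category.id_comp] at hc
      obtain ⟨D, hDc, hD, hDL⟩ := isHard_iff.1 hXL
      obtain ⟨E, hEc, hE, hEL⟩ := isHard_iff.1 hYL
      have hC : W.cl (X.V.X.prod Y.V.X)
          (ops.pull (fst X.V.X Y.V.X) D + ops.pull (snd X.V.X Y.V.X) E) = c := by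
        rw [map_add, W.cl_pull, W.cl_pull, hDc, hEc]
        exact hc.symm
      have hCc : (X.V.X.prod Y.V.X).IsCyc 1
          (ops.pull (fst X.V.X Y.V.X) D + ops.pull (snd X.V.X Y.V.X) E) :=
        SmVar.IsCyc.add (ops.pull_mem _ hD) (ops.pull_mem _ hE)
      rw [← hDc] at hXpos
      rw [← hEc] at hYpos
      obtain ⟨h3, h4⟩ := hodge_step hspl hD hE hDL hEL (one_ne_of_point (hU.point i X.V hX))
        (one_ne_of_point hYp) hXpos hYpos
        (hor.imp (fun h => conjectureD_iff.1 h.2) (fun h => conjectureD_iff.1 h.2))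
      rw [← hodgeElt_iff hCc, ← hodgeElt_iff hD, ← hodgeElt_iff hE, hC, hDc, hEc] at h4
      rw [hC] at h3
      exact ⟨⟨isHard_iff.2 ⟨_, hC, hCc, hardLefschetz_prod hD hE hDL hEL⟩, h3⟩, h4⟩
    refine ⟨hgoal.1, ?_⟩
    rw [hgoal.2, hYA, and_assoc]
    refine and_congr_right fun _ => ?_
    constructor
    · rintro ⟨h1, h2⟩ p hp
      rcases List.mem_cons.1 hp with rfl | hp
      · exact h2
      · exact h1 p hp
    · intro h
      exact ⟨fun p hp => h p (List.mem_cons_of_mem _ hp), h (i, X) List.mem_cons_self⟩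

/-- The towers of varieties with separated Frobenius fields have unlinked factors. -/
theorem unlinkedTowers_of_separated [IsAlgClosed W.K] (p : ℕ) [Fact p.Prime] {I : Type}
    [Fintype I] {K : I → Type} [∀ r, Field (K r)] [∀ r, NumberField (K r)]
    [∀ r, IsCMField (K r)] {a : ℕ} (ha : 0 < a) (m : I → ℕ) (π : ∀ r, K r)
    (hint : ∀ r, _root_.IsIntegral ℤ (π r))
    (hweil : ∀ r, ∀ φ : K r →+* ℂ, ‖φ (π r)‖ ^ 2 = (((p : ℚ) ^ m r : ℚ) : ℝ))
    (b : I → J) (hsep : ∀ r s, b r ≠ b s → Separated (K r) (K s)) {g : Γ}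
    (hg : (χ g : W.K) = (p : W.K) ^ a) {i₀ : J} {Z : GVar W Γ}
    (hZ : EigenvaluesIn p π {r | b r = i₀} g Z)
    (hcl : ∀ l Y, IsTower (blockOf χ p π b g) Z l Y → RespectsCycles χ Y) :
    UnlinkedTowers χ (blockOf χ p π b g) Z {i₀} where
  point i X hX := hX.1.point
  degreesT l Y hY := (tower_in p m π hweil b hZ hY).degrees
  pointT l Y hY := (tower_in p m π hweil b hZ hY).point
  cycles := hcl
  unlinked l Y i X hY _ hi0 hi hX :=
    unlinked_tower p ha m π hint hweil b hsep hg hZ hY hi0 hi hX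
  tate l Y hY hl := tate_separated p ha m π hint hweil b hsep hg i₀ hZ hY hl
  dee l Y hY hl hT := dee_separated p ha m π hint hweil b hsep hg hZ hcl hY hl (Or.inl hT)

end Pool.Agent.Helper793_Tate
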