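import Pool.Agent.H621.OV.Pub
import Pool.Agent.Helper793_Tate.TDefs
import Pool.Agent.Helper793_Prime.Defs

/-!
# Smooth varieties whose Frobenius eigenvalues are in the groups of one block of Weil numbers
-/

open CategoryTheory AlgebraicGeometry

universe u

namespace Pool.Agent.Helper793_Tate.Smooth

open Pool.Agent.H621.OV
open Pool.Agent.H621.AF (IsEigenvalue IsGeneric)

variable {k : Type u} [Field k] {C : SmCohomology k} [CharZero C.K] {Γ : Type} [Group Γ]

/-- The eigenvalues of `g` on the cohomology of `U` are in the group given by `p` and by the
conjugates of the numbers `π r`, `r` in `S` (`InGroup`); the group `Γ` acts through automorphisms of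
the graded algebra. -/
structure EigenvaluesIn (p : ℕ) {I : Type} [Fintype I] {K : I → Type} [∀ r, Field (K r)]
    [∀ r, NumberField (K r)] (π : ∀ r, K r) (S : Set I) (g : Γ) (U : OVar C Γ) : Prop where
  degrees : RespectsDegrees U
  eigenvalues : ∀ x : C.Kˣ, IsEigenvalue U.act g x → InGroup p π S (x : C.K)

/-- The varieties in the block `i`: the eigenvalues of `g` on the cohomology are in the group given
by `p` and by the conjugates of the numbers `π r`, `b r = i`, and `g` is generic: it has on each
subspace of the cohomology which is stable under a subgroup of finite index of `Γ` and not contained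
in the span of the Tate classes an eigenvalue no power of which is a power of `χ g`. -/
def blockOf (χ : Γ →* C.Kˣ) (p : ℕ) {I J : Type} [Fintype I] {K : I → Type} [∀ r, Field (K r)]
    [∀ r, NumberField (K r)] (π : ∀ r, K r) (b : I → J) (g : Γ) (i : J) : Set (OVar C Γ) :=
  {X | EigenvaluesIn p π {r | b r = i} g X ∧ IsGeneric χ (C.gr X.X) X.act g}

end Pool.Agent.Helper793_Tate.Smooth
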