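import Pool.Agent.H621.OV.Twr
import Pool.Agent.Helper793_Tate.TMain
import Pool.Agent.Helper793_Tate.TSmPub

/-!
# The Tate conjecture for products of smooth varieties with separated Frobenius fields
-/

open CategoryTheory AlgebraicGeometry Finset Module NumberField

set_option linter.unusedSectionVars false

universe u

namespace Pool.Agent.Helper793_Tate.Smooth

open Pool.Agent.Helper793_Prime Pool.Agent.Helper793_Tate
open Pool.Agent.H621.OV
open Pool.Agent.H621.OV.SVar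
open Pool.Agent.H621.AF (Near IsEigenvalueOn IsEigenvalue IsGeneric IsTateClass)

variable {k : Type u} [Field k] {C : SmCohomology k} [CharZero C.K] {Γ : Type} [Group Γ]
  {χ : Γ →* C.Kˣ}
  (p : ℕ) [Fact p.Prime] {I J : Type} [Fintype I] {K : I → Type} [∀ r, Field (K r)]
  [∀ r, NumberField (K r)] [∀ r, IsCMField (K r)]

/-- Varieties with separated Frobenius fields are unlinked. -/
theorem unlinked_of_separated [IsAlgClosed C.K] {a : ℕ} (ha : 0 < a) (m : I → ℕ) (π : ∀ r, K r)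
    (hint : ∀ r, IsIntegral ℤ (π r))
    (hweil : ∀ r, ∀ φ : K r →+* ℂ, ‖φ (π r)‖ ^ 2 = (((p : ℚ) ^ m r : ℚ) : ℝ))
    (S : Set I) (hsep : ∀ r ∈ S, ∀ s ∉ S, Separated (K r) (K s)) {g : Γ}
    (hg : (χ g : C.K) = (p : C.K) ^ a) {X Y : OVar C Γ}
    (hX : ∀ x : C.Kˣ, IsEigenvalue X.act g x → InGroup p π S (x : C.K))
    (hY : ∀ x : C.Kˣ, IsEigenvalue Y.act g x → InGroup p π Sᶜ (x : C.K))
    (hgen : IsGeneric χ (C.gr X.X) X.act g) : Unlinked χ (C.gr X.X) X.act Y.act := by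
  intro Δ P hΔ hP hlk
  obtain ⟨n, hn, -, hgn⟩ := Subgroup.exists_pow_mem_of_index_ne_zero hΔ.index_ne_zero g
  refine hgen Δ P n hΔ hP hn hgn ?_
  intro x hx
  obtain ⟨y, hy, e, hxy⟩ := hlk _ hgn x hx
  obtain ⟨v, -, hv0, hv⟩ := hx
  obtain ⟨x₀, hx₀, rfl⟩ := eig_root_alg hn ⟨v, trivial, hv0, hv⟩
  obtain ⟨y₀, hy₀, rfl⟩ := eig_root_alg hn hy
  have h1 : ((x₀ : C.K) * (y₀ : C.K)) ^ n = (p : C.K) ^ ((a * (n * e) : ℕ) : ℤ) := by
    have h2 := congrArg (fun z : C.Kˣ => (z : C.K)) hxy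
    simp only [Units.val_mul, Units.val_pow_eq_pow_val, map_pow] at h2
    rw [mul_pow, h2, hg, zpow_natCast, ← pow_mul, ← pow_mul]
  obtain ⟨A', B', hA', h3⟩ := left_of_relation_alg p m π hint hweil S hsep (x₀ : C.K) (y₀ : C.K)
    (hX x₀ hx₀) (hY y₀ hy₀) n hn _ h1
  refine ⟨A' * a, Nat.mul_pos hA' ha, Subgroup.mem_zpowers_iff.2 ⟨B' * n, ?_⟩⟩
  apply Units.ext
  rw [Units.val_zpow_eq_zpow_val, Units.val_pow_eq_pow_val, Units.val_pow_eq_pow_val, hg,
    ← pow_mul]
  have h4 : n * (A' * a) = A' * (n * a) := by ring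
  rw [h4, pow_mul (x₀ : C.K), h3, ← zpow_natCast ((p : C.K) ^ B'), ← zpow_mul,
    ← zpow_natCast (p : C.K) a, ← zpow_mul]
  congr 1
  push_cast
  ring

/-- The properties of a product. -/
theorem tower_in [IsAlgClosed C.K] (m : I → ℕ) (π : ∀ r, K r)
    (hweil : ∀ r, ∀ φ : K r →+* ℂ, ‖φ (π r)‖ ^ 2 = (((p : ℚ) ^ m r : ℚ) : ℝ))
    (b : I → J) {g : Γ} {i₀ : J} {U : OVar C Γ}
    (hU : EigenvaluesIn p π {r | b r = i₀} g U) {l : List (J × OVar C Γ)} {Y : OVar C Γ}
    (hY : IsTower (blockOf χ p π b g) U l Y) :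
    EigenvaluesIn p π {r | b r = i₀ ∨ ∃ q ∈ l, q.1 = b r} g Y := by
  have hπ : ∀ r, π r ≠ 0 := by
    intro r h0
    obtain ⟨φ⟩ : Nonempty (K r →+* ℂ) := inferInstance
    have h1 := hweil r φ
    rw [h0, map_zero, norm_zero, zero_pow two_ne_zero] at h1
    have h2 : ((p : ℚ) ^ m r) = 0 := by exact_mod_cast h1.symm
    exact pow_ne_zero _ (by exact_mod_cast (Fact.out : p.Prime).ne_zero) h2
  induction hY with
  | base => exact ⟨hU.degrees, fun x hx =>
      (hU.eigenvalues x hx).mono p π fun r hr => Or.inl hr⟩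
  | @step l Y Y' i X hT hi hX hP ih =>
    obtain ⟨YX, υ⟩ := Y'
    obtain ⟨h0, h1, h2⟩ := hP
    change YX = X.X.prod Y.X at h0
    subst h0
    simp only [eqToHom_refl, Category.id_comp] at h1 h2
    refine ⟨graded_prod (C.kunneth _ _) h1 h2 (C.isAlg _).isInternal (C.isAlg _).isInternal
      (C.isAlg _).isInternal (C.isAlg _).mul_mem (C.isFunctorial.map_mem _)
      (C.isFunctorial.map_mem _) hX.1.degrees ih.degrees, ?_⟩
    intro x hx
    have := (C.isAlg X.X).finite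
    have := (C.isAlg Y.X).finite
    have := (C.isAlg (X.X.prod Y.X)).finite
    obtain ⟨a, c, rfl, ha, hc⟩ := eig_prod (C.kunneth _ _) h1 h2 hx
    rw [Units.val_mul]
    refine InGroup.mul p π hπ ((hX.1.eigenvalues a ha).mono p π ?_)
      ((ih.eigenvalues c hc).mono p π ?_)
    · intro r hr
      exact Or.inr ⟨(i, X), List.mem_cons_self, hr.symm⟩
    · rintro r (hr | ⟨q, hq, hr⟩)
      · exact Or.inl hr
      · exact Or.inr ⟨q, List.mem_cons_of_mem _ hq, hr⟩

/-- The new factor of a tower is unlinked with the tower. -/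
theorem unlinked_tower [IsAlgClosed C.K] {a : ℕ} (ha : 0 < a) (m : I → ℕ) (π : ∀ r, K r)
    (hint : ∀ r, IsIntegral ℤ (π r))
    (hweil : ∀ r, ∀ φ : K r →+* ℂ, ‖φ (π r)‖ ^ 2 = (((p : ℚ) ^ m r : ℚ) : ℝ))
    (b : I → J) (hsep : ∀ r s, b r ≠ b s → Separated (K r) (K s)) {g : Γ}
    (hg : (χ g : C.K) = (p : C.K) ^ a) {i₀ : J} {U : OVar C Γ}
    (hU : EigenvaluesIn p π {r | b r = i₀} g U) {l : List (J × OVar C Γ)} {Y : OVar C Γ}
    (hY : IsTower (blockOf χ p π b g) U l Y) {i : J} (hi0 : i ≠ i₀) (hi : ∀ q ∈ l, q.1 ≠ i)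
    {X : OVar C Γ} (hX : X ∈ blockOf χ p π b g i) : Unlinked χ (C.gr X.X) X.act Y.act := by
  have hYin := tower_in p m π hweil b hU hY
  refine unlinked_of_separated p ha m π hint hweil {r | b r = i} (fun r hr s hs =>
    hsep r s fun h => hs (h.symm.trans hr)) hg hX.1.eigenvalues (fun x hx =>
      (hYin.eigenvalues x hx).mono p π ?_) hX.2
  rintro r (hr | ⟨q, hq, hr⟩) hri
  · exact hi0 (hri.symm.trans hr)
  · exact hi q hq (hr.trans hri)

/-- **The Tate classes on towers.** -/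
theorem split_separated [IsAlgClosed C.K] {a : ℕ} (ha : 0 < a) (m : I → ℕ) (π : ∀ r, K r)
    (hint : ∀ r, IsIntegral ℤ (π r))
    (hweil : ∀ r, ∀ φ : K r →+* ℂ, ‖φ (π r)‖ ^ 2 = (((p : ℚ) ^ m r : ℚ) : ℝ))
    (b : I → J) (hsep : ∀ r s, b r ≠ b s → Separated (K r) (K s)) {g : Γ}
    (hg : (χ g : C.K) = (p : C.K) ^ a) {i₀ : J} {U : OVar C Γ}
    (hU : EigenvaluesIn p π {r | b r = i₀} g U) {l : List (J × OVar C Γ)} {Y : OVar C Γ}
    (hY : IsTower (blockOf χ p π b g) U l Y) (hl : ∀ q ∈ l, q.1 ≠ i₀) :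
    TateClassesSplit χ U l Y := by
  induction hY with
  | base => exact fun j c hc => Submodule.subset_span (IsTateProduct.base j c hc)
  | @step l Y Y' i X hT hi hX hP ih =>
    have ih' := ih fun q hq => hl q (List.mem_cons_of_mem _ hq)
    have hL := unlinked_tower p ha m π hint hweil b hsep hg hU hT (hl _ List.mem_cons_self) hi hX
    have hYd := (tower_in p m π hweil b hU hT).degrees
    obtain ⟨YX, υ⟩ := Y'
    obtain ⟨h0, h1, h2⟩ := hP
    change YX = X.X.prod Y.X at h0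
    subst h0
    have hstep : ∀ (m j : ℕ) (a : C.H X.X), IsTateClass χ (C.gr X.X) X.act m a → ∀ c,
        IsTateProduct χ (J := J) U l Y j c →
        C.map (fst X.X Y.X) a * C.map (snd X.X Y.X) c ∈ Submodule.span C.K
          {c | IsTateProduct χ U ((i, X) :: l) (⟨X.X.prod Y.X, υ⟩ : OVar C Γ) (m + j) c} := by
      intro m j a ha c hc
      have h3 := IsTateProduct.step (Y' := (⟨X.X.prod Y.X, υ⟩ : OVar C Γ)) i X m a rfl hc ha
      rw [cross, mulPull] at h3
      simp only [eqToHom_refl, Category.id_comp] at h3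
      exact Submodule.subset_span h3
    simp only [eqToHom_refl, Category.id_comp] at h1 h2
    intro j c ⟨hc, Δ, hΔ, hΔc⟩
    have := (C.isAlg X.X).finite
    have := (C.isAlg Y.X).finite
    have := (C.isAlg (X.X.prod Y.X)).finite
    have h3 := tate_span (C.kunneth X.X Y.X) h1 h2 (C.isAlg _).isInternal (C.isAlg _).isInternal
      (C.isAlg _).isInternal (C.isAlg _).mul_mem (C.isFunctorial.map_mem _)
      (C.isFunctorial.map_mem _) hL hYd hc hΔ hΔc
    refine (Submodule.span_le.2 ?_) h3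
    rintro _ ⟨m, m', x, y, hij, hx, hy, rfl⟩
    rw [SetLike.mem_coe, ← hij]
    have h4 := ih' m' y hy
    clear hy
    induction h4 using Submodule.span_induction with
    | mem c hc => exact hstep m m' x hx c hc
    | zero => rw [map_zero, mul_zero]; exact Submodule.zero_mem _
    | add y y' _ _ hy hy' => rw [map_add, mul_add]; exact Submodule.add_mem _ hy hy'
    | smul r y _ hy => rw [map_smul, mul_smul_comm]; exact Submodule.smul_mem _ _ hy

/-- **The Tate conjecture for towers.** -/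
theorem tate_separated [IsAlgClosed C.K] {a : ℕ} (ha : 0 < a) (m : I → ℕ) (π : ∀ r, K r)
    (hint : ∀ r, IsIntegral ℤ (π r))
    (hweil : ∀ r, ∀ φ : K r →+* ℂ, ‖φ (π r)‖ ^ 2 = (((p : ℚ) ^ m r : ℚ) : ℝ))
    (b : I → J) (hsep : ∀ r s, b r ≠ b s → Separated (K r) (K s)) {g : Γ}
    (hg : (χ g : C.K) = (p : C.K) ^ a) {i₀ : J} {U : OVar C Γ}
    (hU : EigenvaluesIn p π {r | b r = i₀} g U) {l : List (J × OVar C Γ)} {Y : OVar C Γ}
    (hY : IsTower (blockOf χ p π b g) U l Y) (hl : ∀ q ∈ l, q.1 ≠ i₀) (n : ℕ) :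
    TateUpTo χ n Y ↔ TateUpTo χ n U ∧ ∀ q ∈ l, TateUpTo χ n q.2 := by
  induction hY with
  | base => simp
  | @step l Y Y' i X hT hi hX hP ih =>
    have ih' := ih fun q hq => hl q (List.mem_cons_of_mem _ hq)
    have hL := unlinked_tower p ha m π hint hweil b hsep hg hU hT (hl _ List.mem_cons_self) hi hX
    have hYd := (tower_in p m π hweil b hU hT).degrees
    have hgoal : TateUpTo χ n Y' ↔ TateUpTo χ n Y ∧ TateUpTo χ n X := by
      obtain ⟨YX, υ⟩ := Y'
      obtain ⟨h0, h1, h2⟩ := hP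
      change YX = X.X.prod Y.X at h0
      subst h0
      simp only [eqToHom_refl, Category.id_comp] at h1 h2
      exact ⟨fun h => ⟨tate_snd h2 h, tate_fst h1 h⟩, fun h => tate_prod h1 h2 hL hYd h.2 h.1⟩
    rw [hgoal, ih', and_assoc]
    refine and_congr_right fun _ => ?_
    constructor
    · rintro ⟨h1, h2⟩ q hq
      rcases List.mem_cons.1 hq with rfl | hq
      · exact h2
      · exact h1 q hq
    · intro h
      exact ⟨fun q hq => h q (List.mem_cons_of_mem _ hq), h (i, X) List.mem_cons_self⟩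

end Pool.Agent.Helper793_Tate.Smooth
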